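import Pool.Agent.Q150.Adm14A

/-!
# An admissible set of 14 points for four line directions
-/

namespace Pool.Agent.Results.MP_17a11e_co.FourteenPoints

open Q150.Adm14

/-- There is a set of exactly `14` points in the plane such that every horizontal, every vertical,
every slope-`1` and every slope-`(-1)` line contains either none or exactly two of its points. -/
theorem result : ∃ S : Finset (ℝ × ℝ), S.card = 14 ∧ Admissible fourDirections 2 S :=
  ⟨SR, main.2, main.1⟩

end Pool.Agent.Results.MP_17a11e_co.FourteenPoints
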